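import Mathlib

/-!
Counting sites with a small slack.
-/

namespace Pool.Agent.H42T

open Finset

variable {ι : Type*} [DecidableEq ι] {α e : ι → ℝ} {N : ℕ}

theorem card_mul_le (he : ∀ i, 0 ≤ e i)
    (hN : ∀ S : Finset ι, (∀ j ∈ S, 2 * ∑ i ∈ S, e i ≤ α j) → S.card ≤ N)
    (y : ℝ) (hy : 0 ≤ y) (G : Finset ι) (hG : ∀ i ∈ G, y ≤ α i) :
    (G.card : ℝ) * y ≤ N * y + 2 * (N + 1) * ∑ i ∈ G, e i := by
  classical
  set B := G.filter fun i => 2 * ((N : ℝ) + 1) * e i ≤ y with hB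
  have hBc : B.card ≤ N := by
    by_contra hlt
    push Not at hlt
    obtain ⟨S, hSB, hSc⟩ := Finset.exists_subset_card_eq (show N + 1 ≤ B.card from hlt)
    have h1 : ((N : ℝ) + 1) * (2 * ∑ i ∈ S, e i) ≤ ((N : ℝ) + 1) * y := by
      have h2 : ∑ i ∈ S, (2 * ((N : ℝ) + 1) * e i) ≤ ∑ i ∈ S, y :=
        Finset.sum_le_sum fun i hi => (mem_filter.1 (hSB hi)).2
      rw [Finset.sum_const, hSc, nsmul_eq_mul, ← Finset.mul_sum] at h2
      push_cast at h2
      linarith
    have h3 : 2 * ∑ i ∈ S, e i ≤ y := le_of_mul_le_mul_left h1 (by positivity)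
    have h4 := hN S fun j hj => h3.trans (hG j (mem_filter.1 (hSB hj)).1)
    omega
  have h5 : (G.card : ℝ) = (B.card : ℝ) + ((G.filter fun i => ¬ 2 * ((N : ℝ) + 1) * e i ≤ y).card : ℝ) := by
    rw [hB, ← Nat.cast_add, Finset.card_filter_add_card_filter_not]
  have h6 : ((G.filter fun i => ¬ 2 * ((N : ℝ) + 1) * e i ≤ y).card : ℝ) * y ≤
      2 * (N + 1) * ∑ i ∈ G, e i := by
    calc ((G.filter fun i => ¬ 2 * ((N : ℝ) + 1) * e i ≤ y).card : ℝ) * y
        = ∑ i ∈ G.filter (fun i => ¬ 2 * ((N : ℝ) + 1) * e i ≤ y), y := by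
          rw [Finset.sum_const, nsmul_eq_mul]
      _ ≤ ∑ i ∈ G.filter (fun i => ¬ 2 * ((N : ℝ) + 1) * e i ≤ y), 2 * ((N : ℝ) + 1) * e i :=
          Finset.sum_le_sum fun i hi => (not_le.1 (mem_filter.1 hi).2).le
      _ ≤ ∑ i ∈ G, 2 * ((N : ℝ) + 1) * e i :=
          Finset.sum_le_sum_of_subset_of_nonneg (Finset.filter_subset _ _) fun i _ _ =>
            mul_nonneg (by positivity) (he i)
      _ = 2 * (N + 1) * ∑ i ∈ G, e i := by rw [Finset.mul_sum]
  have h7 : (B.card : ℝ) * y ≤ N * y := mul_le_mul_of_nonneg_right (by exact_mod_cast hBc) hy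
  rw [h5, add_mul]
  linarith

theorem sum_lt_le (he : ∀ i, 0 ≤ e i) (hα : ∀ i, α i = 0 ∨ 1 ≤ α i)
    (hN : ∀ S : Finset ι, (∀ j ∈ S, 2 * ∑ i ∈ S, e i ≤ α j) → S.card ≤ N)
    (Y : Finset ι) (h : ℕ) : ∀ x : ℝ, 0 < x → x ≤ 2 ^ h →
    ∑ i ∈ Y.filter (fun i => α i < x), α i ≤
      2 * N * x + 4 * (N + 1) * ∑ i ∈ Y.filter (fun i => α i < x), e i := by
  classical
  induction h with
  | zero =>
    intro x hx hx1
    have h0 : ∑ i ∈ Y.filter (fun i => α i < x), α i = 0 := by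
      apply Finset.sum_eq_zero
      intro i hi
      rcases hα i with h | h
      · exact h
      · have := (mem_filter.1 hi).2
        simp at hx1
        linarith
    rw [h0]
    have h1 : 0 ≤ ∑ i ∈ Y.filter (fun i => α i < x), e i := Finset.sum_nonneg fun i _ => he i
    positivity
  | succ h ih =>
    intro x hx hx1
    have hx2 : x / 2 ≤ 2 ^ h := by
      rw [pow_succ] at hx1
      linarith
    have h1 := ih (x / 2) (by linarith) hx2
    set G := Y.filter fun i => α i < x ∧ ¬ α i < x / 2 with hG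
    have hsplit : ∀ g : ι → ℝ, ∑ i ∈ Y.filter (fun i => α i < x), g i =
        ∑ i ∈ Y.filter (fun i => α i < x / 2), g i + ∑ i ∈ G, g i := by
      intro g
      rw [← Finset.sum_filter_add_sum_filter_not (Y.filter fun i => α i < x)
        (fun i => α i < x / 2) g, Finset.filter_filter, Finset.filter_filter]
      congr 1
      apply Finset.sum_congr _ fun _ _ => rfl
      ext i
      simp only [mem_filter]
      constructor
      · rintro ⟨h1, h2, h3⟩
        exact ⟨h1, h3⟩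
      · rintro ⟨h1, h2⟩
        exact ⟨h1, by linarith, h2⟩
    have h2 := card_mul_le (α := α) he hN (x / 2) (by linarith) G fun i hi =>
      not_lt.1 (mem_filter.1 hi).2.2
    have h3 : ∑ i ∈ G, α i ≤ G.card * x := by
      rw [← nsmul_eq_mul, ← Finset.sum_const]
      exact Finset.sum_le_sum fun i hi => (mem_filter.1 hi).2.1.le
    rw [hsplit α, hsplit e]
    have h4 : (G.card : ℝ) * x = 2 * ((G.card : ℝ) * (x / 2)) := by ring
    nlinarith

/-- The truncated capacity of a set of sites. -/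
theorem sum_min_le (he : ∀ i, 0 ≤ e i) (hα : ∀ i, α i = 0 ∨ 1 ≤ α i)
    (hN : ∀ S : Finset ι, (∀ j ∈ S, 2 * ∑ i ∈ S, e i ≤ α j) → S.card ≤ N)
    (Y : Finset ι) (x : ℝ) (hx : 0 < x) :
    ∑ i ∈ Y, min (α i) x ≤ 3 * N * x + 4 * (N + 1) * ∑ i ∈ Y, e i := by
  classical
  obtain ⟨h, hh⟩ := pow_unbounded_of_one_lt x (show (1 : ℝ) < 2 by norm_num)
  have h1 := sum_lt_le he hα hN Y h x hx hh.le
  have h2 := card_mul_le (α := α) he hN x hx.le (Y.filter fun i => ¬ α i < x) fun i hi =>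
      not_lt.1 (mem_filter.1 hi).2
  have h3 : ∑ i ∈ Y.filter (fun i => α i < x), min (α i) x =
      ∑ i ∈ Y.filter (fun i => α i < x), α i :=
    Finset.sum_congr rfl fun i hi => min_eq_left (mem_filter.1 hi).2.le
  have h4 : ∑ i ∈ Y.filter (fun i => ¬ α i < x), min (α i) x =
      ((Y.filter fun i => ¬ α i < x).card : ℝ) * x := by
    rw [← nsmul_eq_mul, ← Finset.sum_const]
    exact Finset.sum_congr rfl fun i hi => min_eq_right (not_lt.1 (mem_filter.1 hi).2)
  rw [← Finset.sum_filter_add_sum_filter_not Y (fun i => α i < x), h3, h4,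
    ← Finset.sum_filter_add_sum_filter_not Y (fun i => α i < x) e]
  have h5 : 0 ≤ ∑ i ∈ Y.filter (fun i => ¬ α i < x), e i := Finset.sum_nonneg fun i _ => he i
  have h6 : 0 ≤ ∑ i ∈ Y.filter (fun i => α i < x), e i := Finset.sum_nonneg fun i _ => he i
  have h7 : (0 : ℝ) ≤ N := Nat.cast_nonneg N
  nlinarith

end Pool.Agent.H42T
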