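import Pool.Agent.H42T.Count
import Pool.Agent.Helper80.RM.Alg

/-!
The cut inequality for the prices of the robust matching algorithm.
-/

namespace Pool.Agent.H42T

open Finset Pool.Agent.Helper80.RM

private theorem min_sum_le {ι : Type*} (Y : Finset ι) (a : ι → ℝ) (x : ℝ)
    (ha : ∀ i, 0 ≤ a i) (hx : 0 ≤ x) : min (∑ i ∈ Y, a i) x ≤ ∑ i ∈ Y, min (a i) x := by
  by_cases h : ∃ i ∈ Y, x ≤ a i
  · obtain ⟨i, hi, hxi⟩ := h
    have h1 : min (a i) x ≤ ∑ i ∈ Y, min (a i) x :=
      Finset.single_le_sum (f := fun i => min (a i) x) (fun j _ => le_min (ha j) hx) hi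
    rw [min_eq_right hxi] at h1
    exact (min_le_right _ _).trans h1
  · push Not at h
    rw [Finset.sum_congr rfl fun i hi => min_eq_left (h i hi).le]
    exact min_le_left _ _

private theorem card_levels (L : ℕ) (u v ω y : ℝ) (hω : 0 < ω) (hv : v - u ≤ y) (hy : 0 ≤ y) :
    (((range L).filter fun l : ℕ => u ≤ l * ω ∧ l * ω < v).card : ℝ) ≤ y / ω + 1 := by
  set F := (range L).filter fun l : ℕ => u ≤ l * ω ∧ l * ω < v with hF
  rcases F.eq_empty_or_nonempty with h | h
  · rw [h]
    simp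
    positivity
  · have h1 : F ⊆ Icc (F.min' h) (F.max' h) := fun l hl =>
      mem_Icc.2 ⟨F.min'_le l hl, F.le_max' l hl⟩
    have h2 := Finset.card_le_card h1
    rw [Nat.card_Icc] at h2
    have h3 := (mem_filter.1 (F.min'_mem h)).2
    have h4 := (mem_filter.1 (F.max'_mem h)).2
    have h5 : F.min' h ≤ F.max' h := F.min'_le _ (F.max'_mem h)
    have h6 : (F.card : ℝ) ≤ (F.max' h : ℝ) - (F.min' h : ℝ) + 1 := by
      have : (F.card : ℝ) ≤ ((F.max' h + 1 - F.min' h : ℕ) : ℝ) := by exact_mod_cast h2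
      rw [Nat.cast_sub (by omega)] at this
      push_cast at this
      linarith
    have h7 : ((F.max' h : ℝ) - (F.min' h : ℝ)) * ω ≤ y := by
      rw [sub_mul]
      linarith [h3.1, h4.2]
    have h8 : (F.max' h : ℝ) - (F.min' h : ℝ) ≤ y / ω := by
      rw [le_div_iff₀ hω]
      exact h7
    linarith

variable {m : ℕ} {a c : Fin m → ℕ} {τ : ℕ} {f o : ℕ → Fin m} {z : Fin m → ℝ} {y : ℕ → ℝ}

private theorem cut_level (hz : ∀ i, 0 < z i → load τ f i = c i)
    (ho : ∀ i, load τ o i ≤ c i) (b : Fin m) (lev : ℝ) (hlev : 0 < lev) (hb : lev < z b) :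
    (c b : ℝ) - load τ o b ≤
      ∑ k ∈ range τ, (if z (o k) ≤ lev ∧ lev < z (f k) then (1 : ℝ) else 0) := by
  classical
  set g : Fin m → ℝ := fun i => if lev < z i then 1 else 0 with hg
  have h1 : ∑ k ∈ range τ, (g (f k) - g (o k)) = ∑ i, ((load τ f i : ℝ) - load τ o i) * g i := by
    rw [Finset.sum_sub_distrib, sum_load, sum_load, ← Finset.sum_sub_distrib]
    exact Finset.sum_congr rfl fun i _ => by ring
  have h2 : (c b : ℝ) - load τ o b ≤ ∑ i, ((load τ f i : ℝ) - load τ o i) * g i := by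
    have h3 : ∀ i ∈ (Finset.univ : Finset (Fin m)), 0 ≤ ((load τ f i : ℝ) - load τ o i) * g i := by
      intro i _
      by_cases h : lev < z i
      · have h4 := hz i (hlev.trans h)
        have h5 : (load τ o i : ℝ) ≤ c i := by exact_mod_cast ho i
        simp only [hg, if_pos h, mul_one]
        rw [h4]
        linarith
      · simp only [hg, if_neg h, mul_zero]
        exact le_rfl
    refine le_trans (le_of_eq ?_) (Finset.single_le_sum h3 (Finset.mem_univ b))
    simp only [hg, if_pos hb, mul_one]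
    rw [hz b (hlev.trans hb)]
  refine h2.trans (h1 ▸ Finset.sum_le_sum fun k _ => ?_)
  simp only [hg]
  by_cases h3 : lev < z (f k)
  · by_cases h4 : lev < z (o k)
    · rw [if_pos h3, if_pos h4, if_neg (fun h : z (o k) ≤ lev ∧ lev < z (f k) => absurd h.1 (not_le.2 h4))]
      norm_num
    · rw [if_pos h3, if_neg h4, if_pos ⟨not_lt.1 h4, h3⟩]
      norm_num
  · rw [if_neg h3, if_neg (fun h : z (o k) ≤ lev ∧ lev < z (f k) => h3 h.2)]
    split_ifs <;> norm_num

private theorem cut_half (hfeas : ∀ k < τ, z (f k) ≤ y k + z (o k))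
    (hz : ∀ i, 0 < z i → load τ f i = c i) (ho : ∀ i, load τ o i ≤ a i) (hac : ∀ i, a i < c i)
    (b : Fin m) (lev ω : ℝ) (hlev : 0 < lev) (hb : lev < z b) (r : ℝ)
    (hr : r = (c b : ℝ) - load τ o b) :
    r / 2 ≤ ∑ k ∈ range τ, (if (z (o k) ≤ lev ∧ lev < z (f k)) ∧ ω ≤ y k then (1 : ℝ) else 0) +
      ∑ i, (if lev - ω < z i ∧ z i ≤ lev then min (a i : ℝ) (r / 2) else 0) := by
  classical
  have hr0 : 0 ≤ r := by
    have h1 : (load τ o b : ℝ) ≤ a b := by exact_mod_cast ho b
    have h2 : (a b : ℝ) < c b := by exact_mod_cast hac b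
    rw [hr]
    linarith
  have h1 := cut_level (c := c) hz (fun i => (ho i).trans (hac i).le) b lev hlev hb
  rw [← hr] at h1
  have h2 : ∑ k ∈ range τ, (if z (o k) ≤ lev ∧ lev < z (f k) then (1 : ℝ) else 0) ≤
      ∑ k ∈ range τ, (if (z (o k) ≤ lev ∧ lev < z (f k)) ∧ ω ≤ y k then (1 : ℝ) else 0) +
      ∑ k ∈ range τ, (if lev - ω < z (o k) ∧ z (o k) ≤ lev then (1 : ℝ) else 0) := by
    rw [← Finset.sum_add_distrib]
    refine Finset.sum_le_sum fun k hk => ?_
    by_cases h3 : z (o k) ≤ lev ∧ lev < z (f k)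
    · rw [if_pos h3]
      by_cases h4 : ω ≤ y k
      · rw [if_pos ⟨h3, h4⟩]
        split_ifs <;> norm_num
      · rw [if_neg (fun h => h4 h.2)]
        have h5 := hfeas k (mem_range.1 hk)
        rw [if_pos ⟨by push Not at h4; linarith [h3.2], h3.1⟩]
        norm_num
    · rw [if_neg h3]
      split_ifs <;> norm_num
  have h3 : ∑ k ∈ range τ, (if lev - ω < z (o k) ∧ z (o k) ≤ lev then (1 : ℝ) else 0) ≤
      ∑ i ∈ Finset.univ.filter (fun i => lev - ω < z i ∧ z i ≤ lev), (a i : ℝ) := by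
    rw [sum_load τ o fun i => if lev - ω < z i ∧ z i ≤ lev then (1 : ℝ) else 0, Finset.sum_filter]
    refine Finset.sum_le_sum fun i _ => ?_
    split_ifs
    · rw [mul_one]
      exact_mod_cast ho i
    · simp
  have h4 := min_sum_le (Finset.univ.filter fun i => lev - ω < z i ∧ z i ≤ lev)
    (fun i => (a i : ℝ)) (r / 2) (fun i => Nat.cast_nonneg _) (by linarith)
  have h4' : ∑ i ∈ Finset.univ.filter (fun i => lev - ω < z i ∧ z i ≤ lev),
      min (a i : ℝ) (r / 2) =
      ∑ i, (if lev - ω < z i ∧ z i ≤ lev then min (a i : ℝ) (r / 2) else 0) :=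
    Finset.sum_filter _ _
  simp only [h4'] at h4
  have h5 : 0 ≤ ∑ k ∈ range τ,
      (if (z (o k) ≤ lev ∧ lev < z (f k)) ∧ ω ≤ y k then (1 : ℝ) else 0) :=
    Finset.sum_nonneg fun k _ => by split_ifs <;> norm_num
  rcases min_choice (∑ i ∈ Finset.univ.filter (fun i => lev - ω < z i ∧ z i ≤ lev), (a i : ℝ))
    (r / 2) with h6 | h6
  · rw [h6] at h4
    linarith
  · rw [h6] at h4
    linarith

/-- The cut inequality. -/
theorem cut {N : ℕ} (hN : ∀ S : Finset (Fin m),
      (∀ j ∈ S, 2 * ∑ i ∈ S, ((c i : ℝ) - a i) ≤ a j) → S.card ≤ N)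
    (hy : ∀ k, 0 ≤ y k) (hfeas : ∀ k < τ, z (f k) ≤ y k + z (o k))
    (hz : ∀ i, 0 < z i → load τ f i = c i) (ho : ∀ i, load τ o i ≤ a i) (hac : ∀ i, a i < c i)
    (b : Fin m) (P : ℝ) (hP : 0 < P) (hb : P ≤ z b) :
    (c b : ℝ) - load τ o b ≤
      ∑ k ∈ range τ, (if P ≤ 12 * (N + 1) * y k then min 6 (24 * y k / P) else 0) +
      4 * ∑ i, (if P ≤ 4 * z i then (c i : ℝ) - a i else 0) := by
  classical
  set r : ℝ := (c b : ℝ) - load τ o b with hr
  have hr0 : 0 < r := by
    have h1 : (load τ o b : ℝ) ≤ a b := by exact_mod_cast ho b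
    have h2 : (a b : ℝ) < c b := by exact_mod_cast hac b
    rw [hr]
    linarith
  set L : ℕ := 6 * (N + 1) with hL
  have hM : (0 : ℝ) < (N : ℝ) + 1 := by positivity
  have hLr : (L : ℝ) = 6 * ((N : ℝ) + 1) := by rw [hL]; push_cast; ring
  set ω : ℝ := P / (12 * ((N : ℝ) + 1)) with hω
  have hω0 : 0 < ω := by positivity
  have hωP : ω ≤ P / 4 := by
    rw [hω]
    apply div_le_div_of_nonneg_left hP.le (by norm_num)
    have : (0 : ℝ) ≤ N := Nat.cast_nonneg N
    linarith
  have hLω : (L : ℝ) * ω = P / 2 := by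
    rw [hLr, hω]
    field_simp
    ring
  have h1 : ∀ l ∈ range L, r / 2 ≤
      ∑ k ∈ range τ, (if (z (o k) ≤ P / 2 + l * ω ∧ P / 2 + l * ω < z (f k)) ∧ ω ≤ y k
        then (1 : ℝ) else 0) +
      ∑ i, (if P / 2 + l * ω - ω < z i ∧ z i ≤ P / 2 + l * ω then min (a i : ℝ) (r / 2)
        else 0) := by
    intro l hl
    refine cut_half hfeas hz ho hac b (P / 2 + l * ω) ω (by positivity) ?_ r hr
    have h2 : (l : ℝ) < L := by exact_mod_cast mem_range.1 hl
    have h3 : (l : ℝ) * ω < L * ω := mul_lt_mul_of_pos_right h2 hω0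
    linarith
  have h2 := Finset.sum_le_sum h1
  rw [Finset.sum_const, card_range, nsmul_eq_mul, Finset.sum_add_distrib, Finset.sum_comm,
    Finset.sum_comm (s := range L) (t := Finset.univ)] at h2
  have h3 : ∑ k ∈ range τ, ∑ l ∈ range L,
      (if (z (o k) ≤ P / 2 + l * ω ∧ P / 2 + l * ω < z (f k)) ∧ ω ≤ y k then (1 : ℝ) else 0) ≤
      ∑ k ∈ range τ, (if P ≤ 12 * (N + 1) * y k then ((N : ℝ) + 1) * min 6 (24 * y k / P)
        else 0) := by
    refine Finset.sum_le_sum fun k hk => ?_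
    by_cases h4 : ω ≤ y k
    · have h5 : P ≤ 12 * (N + 1) * y k := by
        rw [hω, div_le_iff₀ (by positivity)] at h4
        linarith
      rw [if_pos h5]
      have h6 : ∑ l ∈ range L, (if (z (o k) ≤ P / 2 + l * ω ∧ P / 2 + l * ω < z (f k)) ∧
          ω ≤ y k then (1 : ℝ) else 0) =
          (((range L).filter fun l : ℕ => z (o k) - P / 2 ≤ l * ω ∧
            l * ω < z (f k) - P / 2).card : ℝ) := by
        rw [Finset.card_filter]
        push_cast
        refine Finset.sum_congr rfl fun l _ => ?_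
        congr 1
        apply propext
        constructor
        · rintro ⟨⟨h, h'⟩, _⟩
          exact ⟨by linarith, by linarith⟩
        · rintro ⟨h, h'⟩
          exact ⟨⟨by linarith, by linarith⟩, h4⟩
      rw [h6]
      have h7 : (((range L).filter fun l : ℕ => z (o k) - P / 2 ≤ l * ω ∧
            l * ω < z (f k) - P / 2).card : ℝ) ≤ L := by
        have := Finset.card_filter_le (range L) fun l : ℕ => z (o k) - P / 2 ≤ l * ω ∧
            l * ω < z (f k) - P / 2
        rw [card_range] at this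
        exact_mod_cast this
      have h8 := card_levels L (z (o k) - P / 2) (z (f k) - P / 2) ω (y k) hω0
        (by have := hfeas k (mem_range.1 hk); linarith) (hy k)
      have h9 : 1 ≤ y k / ω := by rw [le_div_iff₀ hω0]; linarith
      rcases min_choice 6 (24 * y k / P) with h10 | h10
      · rw [h10]
        linarith
      · rw [h10]
        have h11 : ((N : ℝ) + 1) * (24 * y k / P) = 2 * (y k / ω) := by
          rw [hω]
          field_simp
          ring
        rw [h11]
        linarith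
    · have h5 : ∀ l ∈ range L, (if (z (o k) ≤ P / 2 + l * ω ∧ P / 2 + l * ω < z (f k)) ∧
          ω ≤ y k then (1 : ℝ) else 0) = 0 := fun l _ => if_neg fun h => h4 h.2
      rw [Finset.sum_eq_zero h5]
      have := hy k
      split_ifs
      · positivity
      · exact le_rfl
  have h4 : ∑ i, ∑ l ∈ range L, (if P / 2 + l * ω - ω < z i ∧ z i ≤ P / 2 + l * ω then
      min (a i : ℝ) (r / 2) else 0) ≤
      ∑ i ∈ Finset.univ.filter (fun i => P ≤ 4 * z i), min (a i : ℝ) (r / 2) := by
    rw [Finset.sum_filter]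
    refine Finset.sum_le_sum fun i _ => ?_
    have h5 : (0 : ℝ) ≤ min (a i : ℝ) (r / 2) := le_min (Nat.cast_nonneg _) (by linarith)
    rw [← Finset.sum_filter, Finset.sum_const, nsmul_eq_mul]
    have h6 : ((range L).filter fun l : ℕ =>
        P / 2 + l * ω - ω < z i ∧ z i ≤ P / 2 + l * ω).card ≤ 1 := by
      rw [Finset.card_le_one]
      intro l hl l' hl'
      have hl1 := (mem_filter.1 hl).2
      have hl2 := (mem_filter.1 hl').2
      have h7 : (l : ℝ) < l' + 1 := by
        by_contra h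
        push Not at h
        have := mul_le_mul_of_nonneg_right h hω0.le
        linarith [hl1.1, hl2.2]
      have h8 : (l' : ℝ) < l + 1 := by
        by_contra h
        push Not at h
        have := mul_le_mul_of_nonneg_right h hω0.le
        linarith [hl2.1, hl1.2]
      have h9 : l < l' + 1 := by exact_mod_cast h7
      have h10 : l' < l + 1 := by exact_mod_cast h8
      omega
    by_cases h7 : P ≤ 4 * z i
    · rw [if_pos h7]
      have h8 : (((range L).filter fun l : ℕ =>
        P / 2 + l * ω - ω < z i ∧ z i ≤ P / 2 + l * ω).card : ℝ) ≤ 1 := by exact_mod_cast h6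
      exact mul_le_of_le_one_left h5 h8
    · rw [if_neg h7]
      have h8 : (range L).filter (fun l : ℕ =>
        P / 2 + l * ω - ω < z i ∧ z i ≤ P / 2 + l * ω) = ∅ := by
        rw [Finset.filter_eq_empty_iff]
        intro l _ h
        push Not at h7
        have : 0 ≤ (l : ℝ) * ω := by positivity
        linarith [h.1]
      rw [h8]
      simp
  have h5 := sum_min_le (α := fun i => (a i : ℝ)) (e := fun i => (c i : ℝ) - a i) (N := N)
    (fun i => by have : (a i : ℝ) < c i := by exact_mod_cast hac i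
                 linarith)
    (fun i => by
      rcases Nat.eq_zero_or_pos (a i) with h | h
      · left; simp [h]
      · right; exact_mod_cast h) hN (Finset.univ.filter fun i => P ≤ 4 * z i) (r / 2)
      (by linarith)
  have h5' : ∑ i ∈ Finset.univ.filter (fun i => P ≤ 4 * z i), ((c i : ℝ) - a i) =
      ∑ i, (if P ≤ 4 * z i then (c i : ℝ) - a i else 0) :=
    Finset.sum_filter _ _
  rw [h5'] at h5
  have h6 : ∑ k ∈ range τ, (if P ≤ 12 * (N + 1) * y k then ((N : ℝ) + 1) * min 6 (24 * y k / P)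
        else 0) = ((N : ℝ) + 1) *
      ∑ k ∈ range τ, (if P ≤ 12 * (N + 1) * y k then min 6 (24 * y k / P) else 0) := by
    rw [Finset.mul_sum]
    exact Finset.sum_congr rfl fun k _ => by split_ifs <;> simp
  rw [h6] at h3
  rw [hLr] at h2
  have h7 : ((N : ℝ) + 1) * r ≤ ((N : ℝ) + 1) *
      (∑ k ∈ range τ, (if P ≤ 12 * (N + 1) * y k then min 6 (24 * y k / P) else 0) +
      4 * ∑ i, (if P ≤ 4 * z i then (c i : ℝ) - a i else 0)) := by
    have h8 : (0 : ℝ) ≤ N := Nat.cast_nonneg N
    nlinarith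
  exact le_of_mul_le_mul_left h7 hM

end Pool.Agent.H42T
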