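import Pool.Agent.H42T.Main
import Pool.Agent.Helper84.TransportProof

/-!
Bounds for the optimal weak competitive ratio in terms of the largest tight set of sites.
-/

namespace Pool.Agent.H42T

open Finset Pool.Agent.Helper80.RM Pool.Agent.Helper84.Transport
open scoped ENNReal

variable {m : ℕ}

/-- A set `S` of sites is tight if twice the total slack `∑ i ∈ S, (c i - a i)` is at most the
adversary capacity `a j` of every site `j ∈ S`. -/
def Tight (a c : Fin m → ℕ) (S : Finset (Fin m)) : Prop :=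
  ∀ j ∈ S, 2 * ∑ i ∈ S, (c i - a i) ≤ a j

open Classical in
/-- The largest number of sites in a tight set. -/
noncomputable def tightNumber (a c : Fin m → ℕ) : ℕ :=
  ((Finset.univ : Finset (Finset (Fin m))).filter fun S => Tight a c S).sup Finset.card

private theorem tight_iff {a c : Fin m → ℕ} (hac : ∀ i, a i < c i) (S : Finset (Fin m)) :
    Tight a c S ↔ ∀ j ∈ S, 2 * ∑ i ∈ S, ((c i : ℝ) - a i) ≤ a j := by
  have h1 : ∑ i ∈ S, ((c i : ℝ) - a i) = ((∑ i ∈ S, (c i - a i) : ℕ) : ℝ) := by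
    push_cast
    refine Finset.sum_congr rfl fun i _ => ?_
    rw [Nat.cast_sub (hac i).le]
  unfold Tight
  rw [h1]
  refine forall_congr' fun j => imp_congr_right fun _ => ?_
  constructor
  · intro h
    exact_mod_cast h
  · intro h
    exact_mod_cast h

theorem card_le_tightNumber {a c : Fin m → ℕ} (S : Finset (Fin m)) (h : Tight a c S) :
    S.card ≤ tightNumber a c := by
  classical
  unfold tightNumber
  exact Finset.le_sup (f := Finset.card) (mem_filter.2 ⟨Finset.mem_univ S, h⟩)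

theorem exists_tight (a c : Fin m → ℕ) :
    ∃ S : Finset (Fin m), Tight a c S ∧ S.card = tightNumber a c := by
  classical
  have hne : ((Finset.univ : Finset (Finset (Fin m))).filter fun S => Tight a c S).Nonempty :=
    ⟨∅, mem_filter.2 ⟨Finset.mem_univ _, fun j hj => absurd hj (Finset.notMem_empty j)⟩⟩
  obtain ⟨S, hS, hS'⟩ := Finset.exists_mem_eq_sup _ hne Finset.card
  refine ⟨S, (mem_filter.1 hS).2, ?_⟩
  unfold tightNumber
  rw [← hS']

private theorem rstar_le_aux (hm : 0 < m) (a c : Fin m → ℕ) (hac : ∀ i, a i < c i) {N : ℕ}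
    (hN : ∀ S : Finset (Fin m), (∀ j ∈ S, 2 * ∑ i ∈ S, ((c i : ℝ) - a i) ≤ a j) → S.card ≤ N)
    (H : ℕ) (hH : 12 * ((N : ℝ) + 1) ≤ 8 * 2 ^ H) (t : ℝ) (ht : 1 < t) :
    Rstar a c ≤ ENNReal.ofReal (2 * (1 + 144 * N * (H + 1) + 52 * (N + 1)) * t / (t - 1)) := by
  have : NeZero m := ⟨by omega⟩
  set K : ℝ := 1 + 144 * N * (H + 1) + 52 * (N + 1) with hK
  have hK0 : 0 < K := by positivity
  have hKt : 0 ≤ 2 * K * t / (t - 1) := div_nonneg (by positivity) (by linarith)
  refine iInf_le_of_le (alg c t ht.le a fun i => (hac i).le) ?_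
  refine iSup_le fun X => iSup_le fun _ => iSup_le fun s => iSup_le fun _ => iSup_le fun r =>
    iSup_le fun n => iSup_le fun hn => ?_
  apply ENNReal.div_le_of_le_mul
  have hle : n ≤ ∑ i, c i := hn.trans (Finset.sum_le_sum fun i _ => (hac i).le)
  have hKt' : ENNReal.ofReal (2 * K * t / (t - 1)) ≠ 0 := by
    rw [Ne, ENNReal.ofReal_eq_zero, not_le]
    exact div_pos (by positivity) (by linarith)
  rw [opt, ENNReal.mul_iInf_of_ne hKt' ENNReal.ofReal_ne_top]
  refine le_iInf fun o => ?_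
  rw [ENNReal.mul_iInf_of_ne hKt' ENNReal.ofReal_ne_top]
  refine le_iInf fun ho => ?_
  have ho' : ∀ i, load n o i ≤ a i := fun i => by
    rw [← ncard_eq_load]; exact ho i
  have h1 : ∑ j ∈ range n, edist (s (o j)) (r j) =
      ENNReal.ofReal (∑ j ∈ range n, dist (s (o j)) (r j)) := by
    rw [ENNReal.ofReal_sum_of_nonneg fun _ _ => dist_nonneg]
    exact Finset.sum_congr rfl fun j _ => edist_dist _ _
  rw [alg_cost, h1, ← ENNReal.ofReal_mul hKt]
  exact ENNReal.ofReal_le_ofReal (analysis ht hac hN s r n hle o ho' H hH)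

private theorem rstar_le_H (hm : 0 < m) (a c : Fin m → ℕ) (hac : ∀ i, a i < c i) {N : ℕ}
    (hN : ∀ S : Finset (Fin m), (∀ j ∈ S, 2 * ∑ i ∈ S, ((c i : ℝ) - a i) ≤ a j) → S.card ≤ N)
    (H : ℕ) (hH : 12 * ((N : ℝ) + 1) ≤ 8 * 2 ^ H) :
    Rstar a c ≤ ENNReal.ofReal (2 * (1 + 144 * N * (H + 1) + 52 * (N + 1))) := by
  set K : ℝ := 1 + 144 * N * (H + 1) + 52 * (N + 1) with hK
  have hlim : Filter.Tendsto (fun t : ℝ => 2 * K * t / (t - 1)) Filter.atTop (nhds (2 * K)) := by
    have h1 : Filter.Tendsto (fun t : ℝ => 2 * K + 2 * K * (t - 1)⁻¹) Filter.atTop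
        (nhds (2 * K + 2 * K * 0)) := by
      refine tendsto_const_nhds.add (tendsto_const_nhds.mul ?_)
      exact tendsto_inv_atTop_zero.comp (Filter.tendsto_atTop_add_const_right _ _ Filter.tendsto_id)
    rw [mul_zero, add_zero] at h1
    refine h1.congr' ?_
    filter_upwards [Filter.eventually_gt_atTop 1] with t ht
    have : t - 1 ≠ 0 := by linarith
    field_simp
    ring
  refine ge_of_tendsto (ENNReal.tendsto_ofReal hlim) ?_
  filter_upwards [Filter.eventually_gt_atTop 1] with t ht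
  exact rstar_le_aux hm a c hac hN H hH t ht

/-- The upper bound. -/
theorem upper (hm : 0 < m) (a c : Fin m → ℕ) (hac : ∀ i, a i < c i) :
    Rstar a c ≤ ENNReal.ofReal
      (1000 * ((tightNumber a c : ℝ) + 1) * (1 + Real.log ((tightNumber a c : ℝ) + 1))) := by
  set N := tightNumber a c with hN
  have h1 : 12 * ((N : ℝ) + 1) ≤ 8 * 2 ^ (Nat.log 2 (N + 1) + 2) := by
    have h2 := Nat.lt_pow_succ_log_self (b := 2) (by norm_num) (N + 1)
    have h3 : ((N : ℝ) + 1) ≤ 2 ^ (Nat.log 2 (N + 1) + 1) := by exact_mod_cast h2.le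
    have h4 : (2 : ℝ) ^ (Nat.log 2 (N + 1) + 2) = 2 * 2 ^ (Nat.log 2 (N + 1) + 1) := by
      rw [← pow_succ']
    rw [h4]
    have : (0 : ℝ) ≤ N := Nat.cast_nonneg N
    linarith
  refine (rstar_le_H hm a c hac (N := N)
    (fun S hS => card_le_tightNumber S ((tight_iff hac S).2 hS)) _ h1).trans ?_
  apply ENNReal.ofReal_le_ofReal
  have h5 : (Nat.log 2 (N + 1) : ℝ) * Real.log 2 ≤ Real.log ((N : ℝ) + 1) := by
    rw [← Real.log_pow]
    apply Real.log_le_log (by positivity)
    have := Nat.pow_log_le_self 2 (show N + 1 ≠ 0 by omega)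
    exact_mod_cast this
  have h6 := Real.log_two_gt_d9
  have h7 : (0 : ℝ) ≤ Nat.log 2 (N + 1) := Nat.cast_nonneg _
  have h8 : (Nat.log 2 (N + 1) : ℝ) ≤ 1.5 * Real.log ((N : ℝ) + 1) := by nlinarith
  have h9 : (0 : ℝ) ≤ N := Nat.cast_nonneg N
  push_cast
  have h10 : (N : ℝ) * (Nat.log 2 (N + 1) : ℝ) ≤
      ((N : ℝ) + 1) * (1.5 * Real.log ((N : ℝ) + 1)) := by
    apply mul_le_mul _ h8 h7 (by positivity)
    linarith
  have h11 : 0 ≤ ((N : ℝ) + 1) * Real.log ((N : ℝ) + 1) :=
    mul_nonneg (by positivity) (Real.log_nonneg (by linarith))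
  nlinarith

/-- The lower bound. -/
theorem lower (a c : Fin m → ℕ) (hac : ∀ i, a i < c i) :
    ENNReal.ofReal (harmonic (tightNumber a c) : ℝ) ≤ Rstar a c := by
  obtain ⟨S, hS, hSc⟩ := exists_tight a c
  rw [← hSc]
  rcases S.eq_empty_or_nonempty with h | h
  · rw [h]
    simp
  · obtain ⟨j0, hj0, hmin⟩ := Finset.exists_min_image S a h
    have h1 := hS j0 hj0
    have h2 : 0 < ∑ i ∈ S, (c i - a i) :=
      Finset.sum_pos (fun i _ => by have := hac i; omega) h
    have hT0 : 0 < a j0 := by omega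
    refine le_trans ?_ (main a c S (a j0) hT0 hmin)
    apply ENNReal.ofReal_le_ofReal
    have h3 := (tight_iff hac S).1 hS j0 hj0
    have h4 : (0 : ℝ) < a j0 := by exact_mod_cast hT0
    have h5 : (∑ i ∈ S, ((c i : ℝ) - a i)) / (a j0 : ℝ) ≤ 1 / 2 := by
      rw [div_le_iff₀ h4]
      linarith
    have h6 : (1 : ℝ) ≤ (harmonic S.card : ℝ) := by
      have h7 : (1 : ℚ) ≤ harmonic S.card := by
        have h8 : 0 < S.card := h.card_pos
        unfold harmonic
        obtain ⟨k, hk⟩ := Nat.exists_eq_succ_of_ne_zero h8.ne'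
        rw [hk, Finset.sum_range_succ']
        have : (0 : ℚ) ≤ ∑ i ∈ range k, ((((i + 1 : ℕ) : ℚ) + 1)⁻¹) :=
          Finset.sum_nonneg fun i _ => by positivity
        simp only [Nat.cast_zero, zero_add, inv_one]
        push_cast at this ⊢
        linarith
      exact_mod_cast h7
    nlinarith

end Pool.Agent.H42T
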