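import Mathlib

/-!
A finite layer cake inequality.
-/

namespace Pool.Agent.H42T

open Finset MeasureTheory

private theorem int_one (a x B : ℝ) (hx : 0 ≤ x) (hxB : x ≤ B) :
    ∫ P in Set.Ioc 0 B, (if P ≤ x then a else 0) = a * x := by
  have h1 : ∀ P : ℝ, (if P ≤ x then a else 0) = (Set.Iic x).indicator (fun _ => a) P := by
    intro P
    rw [Set.indicator_apply]
    simp [Set.mem_Iic]
  simp_rw [h1]
  rw [setIntegral_indicator measurableSet_Iic]
  have h2 : Set.Ioc 0 B ∩ Set.Iic x = Set.Ioc 0 x := by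
    ext P
    simp only [Set.mem_inter_iff, Set.mem_Ioc, Set.mem_Iic]
    constructor
    · rintro ⟨⟨h, _⟩, h'⟩
      exact ⟨h, h'⟩
    · rintro ⟨h, h'⟩
      exact ⟨⟨h, h'.trans hxB⟩, h'⟩
  rw [h2, setIntegral_const]
  simp [hx, mul_comm]

private theorem integrable_one (a x B : ℝ) :
    IntegrableOn (fun P : ℝ => if P ≤ x then a else 0) (Set.Ioc 0 B) := by
  have h1 : (fun P : ℝ => if P ≤ x then a else 0) = (Set.Iic x).indicator (fun _ => a) := by
    funext P
    rw [Set.indicator_apply]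
    simp [Set.mem_Iic]
  rw [h1]
  apply Integrable.indicator _ measurableSet_Iic
  exact integrableOn_const (by simp)

/-- If the weighted numbers of elements above every positive level compare, then so do the
weighted sums. -/
theorem layer {ι κ : Type*} (J : Finset ι) (K : Finset κ) (α x : ι → ℝ) (β y : κ → ℝ)
    (hx : ∀ j ∈ J, 0 ≤ x j) (hy : ∀ k ∈ K, 0 ≤ y k)
    (h : ∀ P : ℝ, 0 < P → ∑ j ∈ J, (if P ≤ x j then α j else 0) ≤
      ∑ k ∈ K, (if P ≤ y k then β k else 0)) :
    ∑ j ∈ J, α j * x j ≤ ∑ k ∈ K, β k * y k := by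
  classical
  set B : ℝ := ∑ j ∈ J, x j + ∑ k ∈ K, y k with hB
  have hxs : 0 ≤ ∑ j ∈ J, x j := Finset.sum_nonneg hx
  have hys : 0 ≤ ∑ k ∈ K, y k := Finset.sum_nonneg hy
  have h1 : ∑ j ∈ J, α j * x j =
      ∫ P in Set.Ioc 0 B, ∑ j ∈ J, (if P ≤ x j then α j else 0) := by
    rw [integral_finset_sum _ fun j _ => integrable_one _ _ _]
    refine Finset.sum_congr rfl fun j hj => ?_
    rw [int_one _ _ _ (hx j hj)]
    have := Finset.single_le_sum hx hj
    linarith
  have h2 : ∑ k ∈ K, β k * y k =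
      ∫ P in Set.Ioc 0 B, ∑ k ∈ K, (if P ≤ y k then β k else 0) := by
    rw [integral_finset_sum _ fun j _ => integrable_one _ _ _]
    refine Finset.sum_congr rfl fun k hk => ?_
    rw [int_one _ _ _ (hy k hk)]
    have := Finset.single_le_sum hy hk
    linarith
  rw [h1, h2]
  apply setIntegral_mono_on
  · exact integrable_finset_sum _ fun j _ => integrable_one _ _ _
  · exact integrable_finset_sum _ fun j _ => integrable_one _ _ _
  · exact measurableSet_Ioc
  · intro P hP
    exact h P hP.1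

end Pool.Agent.H42T
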