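import Pool.Agent.H42T.Cut
import Pool.Agent.H42T.Layer

/-!
The sum of the prices paid by the robust matching algorithm.
-/

namespace Pool.Agent.H42T

open Finset Pool.Agent.Helper80.RM

variable {m : ℕ}

private theorem load_mono (o : ℕ → Fin m) (b : Fin m) {j j' : ℕ} (h : j ≤ j') :
    load j o b ≤ load j' o b := by
  unfold load
  exact Finset.sum_le_sum_of_subset (Finset.range_mono h)

private theorem load_lt (o : ℕ → Fin m) {j j' : ℕ} (h : j < j') :
    load (j + 1) o (o j') < load (j' + 1) o (o j') := by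
  have h1 : load (j' + 1) o (o j') = load j' o (o j') + 1 := by
    unfold load
    rw [Finset.sum_range_succ]
    simp
  have h2 := load_mono o (o j') (show j + 1 ≤ j' by omega)
  omega

/-- The number of requests of a site with a bounded residual. -/
private theorem card_le_residual {n : ℕ} {o : ℕ → Fin m} {c : Fin m → ℕ}
    (ho : ∀ i, load n o i < c i) (b : Fin m) (Q : ℕ → Prop) [DecidablePred Q] (T : ℕ)
    (hT : ∀ j < n, Q j → c (o j) - load (j + 1) o (o j) ≤ T) :
    ((range n).filter fun j => Q j ∧ o j = b).card ≤ T := by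
  classical
  have h1 : ((range n).filter fun j => Q j ∧ o j = b).card =
      (((range n).filter fun j => Q j ∧ o j = b).image
        fun j => c (o j) - load (j + 1) o (o j)).card := by
    rw [Finset.card_image_of_injOn]
    intro j hj j' hj' h
    have hj1 := mem_filter.1 hj
    have hj2 := mem_filter.1 hj'
    have hjn := mem_range.1 hj1.1
    have hjn' := mem_range.1 hj2.1
    simp only at h
    rw [hj1.2.2, hj2.2.2] at h
    have h2 := load_mono o b (show j + 1 ≤ n by omega)
    have h3 := load_mono o b (show j' + 1 ≤ n by omega)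
    have h4 := ho b
    have h5 : load (j + 1) o b = load (j' + 1) o b := by omega
    rcases lt_trichotomy j j' with h6 | h6 | h6
    · have := load_lt o h6
      rw [hj2.2.2] at this
      omega
    · exact h6
    · have := load_lt o h6
      rw [hj1.2.2] at this
      omega
  rw [h1]
  have h2 : (((range n).filter fun j => Q j ∧ o j = b).image
        fun j => c (o j) - load (j + 1) o (o j)) ⊆ Icc 1 T := by
    intro x hx
    obtain ⟨j, hj, rfl⟩ := mem_image.1 hx
    have hj1 := mem_filter.1 hj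
    have hjn := mem_range.1 hj1.1
    have h2 := load_mono o (o j) (show j + 1 ≤ n by omega)
    have h4 := ho (o j)
    exact mem_Icc.2 ⟨by omega, hT j hjn hj1.2.1⟩
  have := Finset.card_le_card h2
  rwa [Nat.card_Icc, Nat.add_sub_cancel] at this

private theorem dyadic (M P y : ℝ) (H : ℕ) (hP : 0 < P) (hy : 0 ≤ y)
    (hH : 12 * M ≤ 8 * 2 ^ H) :
    (if P ≤ 12 * M * y then min 6 (24 * y / P) else 0) ≤
      ∑ h ∈ range (H + 1), (if P ≤ 8 * y * 2 ^ h then 6 / (2 : ℝ) ^ h else 0) := by
  have hnn : ∀ h ∈ range (H + 1), 0 ≤ (if P ≤ 8 * y * 2 ^ h then 6 / (2 : ℝ) ^ h else 0) := by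
    intro h _
    split_ifs
    · positivity
    · exact le_rfl
  by_cases h1 : P ≤ 12 * M * y
  · rw [if_pos h1]
    have h2 : P ≤ 8 * y * 2 ^ H := by
      have := mul_le_mul_of_nonneg_right hH hy
      linarith
    have hex : ∃ h : ℕ, P ≤ 8 * y * 2 ^ h := ⟨H, h2⟩
    classical
    set h := Nat.find hex with hh
    have h3 : P ≤ 8 * y * 2 ^ h := Nat.find_spec hex
    have h4 : h ≤ H := Nat.find_min' hex h2
    have h5 := Finset.single_le_sum hnn (mem_range.2 (show h < H + 1 by omega))
    rw [if_pos h3] at h5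
    refine le_trans ?_ h5
    rcases Nat.eq_zero_or_pos h with h6 | h6
    · rw [h6]
      simp
    · have h7 : ¬ P ≤ 8 * y * 2 ^ (h - 1) := Nat.find_min hex (by omega)
      push Not at h7
      refine (min_le_right _ _).trans ?_
      rw [div_le_div_iff₀ hP (by positivity)]
      have h8 : (2 : ℝ) ^ h = 2 * 2 ^ (h - 1) := by
        rw [← pow_succ']
        congr 1
        omega
      rw [h8]
      nlinarith
  · rw [if_neg h1]
    exact Finset.sum_nonneg hnn

section

variable [NeZero m] {c : Fin m → ℕ} {t : ℝ} {X : Type} [MetricSpace X]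

/-- The number of requests with a large price. -/
private theorem count_le (ht : 1 ≤ t) {a : Fin m → ℕ} (hac : ∀ i, a i < c i) {N : ℕ}
    (hN : ∀ S : Finset (Fin m), (∀ j ∈ S, 2 * ∑ i ∈ S, ((c i : ℝ) - a i) ≤ a j) → S.card ≤ N)
    (s : Fin m → X) (r : ℕ → X) (n : ℕ) (hn : n ≤ ∑ i, c i)
    (o : ℕ → Fin m) (ho : ∀ i, load n o i ≤ a i) (P : ℝ) (hP : 0 < P) :
    ∑ j ∈ range n, (if P ≤ (st c t s r (j + 1)).2 (o j) then (1 : ℝ) else 0) ≤
      3 * N * (∑ k ∈ range n, (if P ≤ 12 * (N + 1) * (t * dist (s (o k)) (r k)) then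
        min 6 (24 * (t * dist (s (o k)) (r k)) / P) else 0) +
        4 * ∑ i, (if P ≤ 4 * (st c t s r n).2 i then (c i : ℝ) - a i else 0)) +
      4 * (N + 1) * ∑ i, (if P ≤ (st c t s r n).2 i then (c i : ℝ) - a i else 0) := by
  classical
  set Q : ℕ → Prop := fun j => P ≤ (st c t s r (j + 1)).2 (o j) with hQ
  set y : ℕ → ℝ := fun k => t * dist (s (o k)) (r k) with hy
  have hy0 : ∀ k, 0 ≤ y k := fun k => mul_nonneg (by linarith) dist_nonneg
  have he : ∀ i, 0 ≤ (c i : ℝ) - a i := fun i => by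
    have : (a i : ℝ) < c i := by exact_mod_cast hac i
    linarith
  have hR1 : 0 ≤ ∑ k ∈ range n, (if P ≤ 12 * (N + 1) * y k then min 6 (24 * y k / P) else 0) := by
    refine Finset.sum_nonneg fun k _ => ?_
    have := hy0 k
    split_ifs
    · positivity
    · exact le_rfl
  have hR2 : 0 ≤ ∑ i, (if P ≤ 4 * (st c t s r n).2 i then (c i : ℝ) - a i else 0) := by
    refine Finset.sum_nonneg fun k _ => ?_
    split_ifs
    · exact he _
    · exact le_rfl
  have hR3 : 0 ≤ ∑ i, (if P ≤ (st c t s r n).2 i then (c i : ℝ) - a i else 0) := by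
    refine Finset.sum_nonneg fun k _ => ?_
    split_ifs
    · exact he _
    · exact le_rfl
  rcases ((range n).filter Q).eq_empty_or_nonempty with hE | hE
  · have h0 : ∑ j ∈ range n, (if P ≤ (st c t s r (j + 1)).2 (o j) then (1 : ℝ) else 0) = 0 := by
      refine Finset.sum_eq_zero fun j hj => if_neg fun h => ?_
      exact Finset.notMem_empty j (hE ▸ mem_filter.2 ⟨hj, h⟩)
    rw [h0]
    positivity
  obtain ⟨j0, hj0, hmax⟩ := Finset.exists_max_image ((range n).filter Q)
    (fun j => c (o j) - load (j + 1) o (o j)) hE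
  have hj0n := mem_range.1 (mem_filter.1 hj0).1
  have hj0Q : P ≤ (st c t s r (j0 + 1)).2 (o j0) := (mem_filter.1 hj0).2
  set T : ℕ := c (o j0) - load (j0 + 1) o (o j0) with hT
  have hlo : load (j0 + 1) o (o j0) < c (o j0) :=
    ((load_mono o (o j0) (by omega)).trans (ho _)).trans_lt (hac _)
  have hTr : (T : ℝ) = (c (o j0) : ℝ) - load (j0 + 1) o (o j0) := by
    rw [hT, Nat.cast_sub hlo.le]
  have hT0 : (0 : ℝ) < T := by
    have : 0 < T := by omega
    exact_mod_cast this
  -- the cut inequality at the time of `j0`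
  have hI := inv_all (c := c) ht s r (j0 + 1) (by omega)
  have hcut := cut (a := a) (c := c) (τ := j0 + 1) (f := (st c t s r (j0 + 1)).1) (o := o)
    (z := (st c t s r (j0 + 1)).2) (y := y) hN hy0
    (fun k hk => by
      have h1 := hI.feas k hk (o k)
      have h2 : 0 ≤ dist (s ((st c t s r (j0 + 1)).1 k)) (r k) := dist_nonneg
      simp only [hy]
      linarith)
    (fun i hi => by
      by_contra h
      have h1 := hI.cap i
      have h2 := hI.slack i (by omega)
      linarith)
    (fun i => (load_mono o i (by omega)).trans (ho i)) hac (o j0) P hP hj0Q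
  rw [← hTr] at hcut
  have hc1 : ∑ k ∈ range (j0 + 1), (if P ≤ 12 * (N + 1) * y k then min 6 (24 * y k / P) else 0) ≤
      ∑ k ∈ range n, (if P ≤ 12 * (N + 1) * y k then min 6 (24 * y k / P) else 0) := by
    apply Finset.sum_le_sum_of_subset_of_nonneg (Finset.range_mono (by omega))
    intro k _ _
    have := hy0 k
    split_ifs
    · positivity
    · exact le_rfl
  have hc2 : ∑ i, (if P ≤ 4 * (st c t s r (j0 + 1)).2 i then (c i : ℝ) - a i else 0) ≤
      ∑ i, (if P ≤ 4 * (st c t s r n).2 i then (c i : ℝ) - a i else 0) := by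
    refine Finset.sum_le_sum fun i _ => ?_
    have h1 := z_mono (c := c) ht s r (j0 + 1) n (by omega) hn i
    by_cases h2 : P ≤ 4 * (st c t s r (j0 + 1)).2 i
    · rw [if_pos h2, if_pos (by linarith)]
    · rw [if_neg h2]
      split_ifs
      · exact he i
      · exact le_rfl
  -- the number of requests
  have hcnt : ∑ j ∈ range n, (if P ≤ (st c t s r (j + 1)).2 (o j) then (1 : ℝ) else 0) =
      ∑ b, (((range n).filter fun j => Q j ∧ o j = b).card : ℝ) := by
    simp_rw [Finset.card_filter]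
    push_cast
    rw [Finset.sum_comm]
    refine Finset.sum_congr rfl fun j _ => ?_
    by_cases h1 : Q j
    · rw [if_pos h1]
      simp [h1]
    · rw [if_neg h1]
      simp [h1]
  have hb : ∑ b, (((range n).filter fun j => Q j ∧ o j = b).card : ℝ) ≤
      ∑ b ∈ Finset.univ.filter (fun b => P ≤ (st c t s r n).2 b), min (a b : ℝ) T := by
    rw [Finset.sum_filter]
    refine Finset.sum_le_sum fun b _ => ?_
    by_cases h1 : P ≤ (st c t s r n).2 b
    · rw [if_pos h1]
      apply le_min
      · have h2 : ((range n).filter fun j => Q j ∧ o j = b).card ≤ load n o b := by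
          unfold load
          rw [← Finset.card_filter]
          exact Finset.card_le_card fun j hj =>
            mem_filter.2 ⟨(mem_filter.1 hj).1, (mem_filter.1 hj).2.2⟩
        exact_mod_cast h2.trans (ho b)
      · have h2 := card_le_residual (c := c) (fun i => (ho i).trans_lt (hac i)) b Q T
          fun j hj hQj => hmax j (mem_filter.2 ⟨mem_range.2 hj, hQj⟩)
        exact_mod_cast h2
    · rw [if_neg h1]
      have h2 : (range n).filter (fun j => Q j ∧ o j = b) = ∅ := by
        rw [Finset.filter_eq_empty_iff]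
        rintro j hj ⟨h3, h4⟩
        have h5 := z_mono (c := c) ht s r (j + 1) n (by have := mem_range.1 hj; omega) hn (o j)
        rw [h4] at h5
        have h3' : P ≤ (st c t s r (j + 1)).2 (o j) := h3
        rw [h4] at h3'
        exact h1 (h3'.trans h5)
      rw [h2]
      simp
  have hA := sum_min_le (α := fun i => (a i : ℝ)) (e := fun i => (c i : ℝ) - a i) (N := N) he
    (fun i => by
      rcases Nat.eq_zero_or_pos (a i) with h | h
      · left; simp [h]
      · right; exact_mod_cast h) hN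
    (Finset.univ.filter fun b => P ≤ (st c t s r n).2 b) (T : ℝ) hT0
  have hA' : ∑ i ∈ Finset.univ.filter (fun b => P ≤ (st c t s r n).2 b), ((c i : ℝ) - a i) =
      ∑ i, (if P ≤ (st c t s r n).2 i then (c i : ℝ) - a i else 0) :=
    Finset.sum_filter _ _
  rw [hA'] at hA
  rw [hcnt]
  refine (hb.trans hA).trans ?_
  have h3N : (0 : ℝ) ≤ 3 * N := by positivity
  have := mul_le_mul_of_nonneg_left (hcut.trans (add_le_add hc1
    (mul_le_mul_of_nonneg_left hc2 (by norm_num : (0 : ℝ) ≤ 4)))) h3N
  linarith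

/-- The sum of the prices. -/
theorem price_sum_le (ht : 1 ≤ t) {a : Fin m → ℕ} (hac : ∀ i, a i < c i) {N : ℕ}
    (hN : ∀ S : Finset (Fin m), (∀ j ∈ S, 2 * ∑ i ∈ S, ((c i : ℝ) - a i) ≤ a j) → S.card ≤ N)
    (s : Fin m → X) (r : ℕ → X) (n : ℕ) (hn : n ≤ ∑ i, c i)
    (o : ℕ → Fin m) (ho : ∀ i, load n o i ≤ a i) (H : ℕ) (hH : 12 * ((N : ℝ) + 1) ≤ 8 * 2 ^ H) :
    ∑ j ∈ range n, (st c t s r (j + 1)).2 (o j) ≤
      144 * N * (H + 1) * (t * ∑ k ∈ range n, dist (s (o k)) (r k)) +
      52 * (N + 1) * ∑ i, ((c i : ℝ) - a i) * (st c t s r n).2 i := by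
  classical
  set y : ℕ → ℝ := fun k => t * dist (s (o k)) (r k) with hy
  have hy0 : ∀ k, 0 ≤ y k := fun k => mul_nonneg (by linarith) dist_nonneg
  have he : ∀ i, 0 ≤ (c i : ℝ) - a i := fun i => by
    have : (a i : ℝ) < c i := by exact_mod_cast hac i
    linarith
  have hζ : ∀ i, 0 ≤ (st c t s r n).2 i := (inv_all (c := c) ht s r n hn).nonneg
  have key := layer (range n) ((range n ×ˢ range (H + 1)).disjSum
      ((Finset.univ : Finset (Fin m)).disjSum (Finset.univ : Finset (Fin m))))
    (fun _ => 1) (fun j => (st c t s r (j + 1)).2 (o j))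
    (Sum.elim (fun p => 3 * N * (6 / (2 : ℝ) ^ p.2))
      (Sum.elim (fun i => 3 * N * (4 * ((c i : ℝ) - a i))) (fun i => 4 * (N + 1) * ((c i : ℝ) - a i))))
    (Sum.elim (fun p => 8 * y p.1 * 2 ^ p.2)
      (Sum.elim (fun i => 4 * (st c t s r n).2 i) (fun i => (st c t s r n).2 i)))
    (fun j hj => (inv_all (c := c) ht s r (j + 1)
      (by have := mem_range.1 hj; omega)).nonneg _)
    (by
      rintro (p | i | i) _
      · have := hy0 p.1
        simp only [Sum.elim_inl]
        positivity
      · have := hζ i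
        simp only [Sum.elim_inr, Sum.elim_inl]
        positivity
      · exact hζ i)
    (by
      intro P hP
      refine (count_le (c := c) ht hac hN s r n hn o ho P hP).trans ?_
      rw [Finset.sum_disjSum, Finset.sum_disjSum, Finset.sum_product]
      simp only [Sum.elim_inl, Sum.elim_inr]
      have h1 : ∑ k ∈ range n, (if P ≤ 12 * (N + 1) * y k then min 6 (24 * y k / P) else 0) ≤
          ∑ k ∈ range n, ∑ h ∈ range (H + 1),
            (if P ≤ 8 * y k * 2 ^ h then 6 / (2 : ℝ) ^ h else 0) :=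
        Finset.sum_le_sum fun k _ => dyadic _ P (y k) H hP (hy0 k) hH
      have h2 : ∑ k ∈ range n, ∑ h ∈ range (H + 1),
          (if P ≤ 8 * y k * 2 ^ h then 3 * N * (6 / (2 : ℝ) ^ h) else 0) =
          3 * N * ∑ k ∈ range n, ∑ h ∈ range (H + 1),
            (if P ≤ 8 * y k * 2 ^ h then 6 / (2 : ℝ) ^ h else 0) := by
        rw [Finset.mul_sum]
        refine Finset.sum_congr rfl fun k _ => ?_
        rw [Finset.mul_sum]
        refine Finset.sum_congr rfl fun h _ => ?_
        split_ifs <;> simp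
      have h3 : ∑ i, (if P ≤ 4 * (st c t s r n).2 i then 3 * (N : ℝ) * (4 * ((c i : ℝ) - a i))
          else 0) = 3 * N * (4 * ∑ i, (if P ≤ 4 * (st c t s r n).2 i then (c i : ℝ) - a i
          else 0)) := by
        rw [Finset.mul_sum, Finset.mul_sum]
        refine Finset.sum_congr rfl fun k _ => ?_
        split_ifs <;> simp
      have h4 : ∑ i, (if P ≤ (st c t s r n).2 i then 4 * ((N : ℝ) + 1) * ((c i : ℝ) - a i)
          else 0) = 4 * (N + 1) * ∑ i, (if P ≤ (st c t s r n).2 i then (c i : ℝ) - a i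
          else 0) := by
        rw [Finset.mul_sum]
        refine Finset.sum_congr rfl fun k _ => ?_
        split_ifs <;> simp
      rw [h2, h3, h4]
      have h5 := mul_le_mul_of_nonneg_left h1 (by positivity : (0 : ℝ) ≤ 3 * N)
      simp only [hy] at h5 ⊢
      linarith)
  rw [Finset.sum_disjSum, Finset.sum_disjSum, Finset.sum_product] at key
  simp only [Sum.elim_inl, Sum.elim_inr, one_mul] at key
  have h1 : ∑ k ∈ range n, ∑ h ∈ range (H + 1), 3 * (N : ℝ) * (6 / 2 ^ h) * (8 * y k * 2 ^ h) =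
      144 * N * (H + 1) * (t * ∑ k ∈ range n, dist (s (o k)) (r k)) := by
    rw [Finset.mul_sum, Finset.mul_sum]
    refine Finset.sum_congr rfl fun k _ => ?_
    have h2 : ∀ h ∈ range (H + 1), 3 * (N : ℝ) * (6 / 2 ^ h) * (8 * y k * 2 ^ h) =
        144 * N * y k := by
      intro h _
      have : (2 : ℝ) ^ h ≠ 0 := by positivity
      field_simp
      ring
    rw [Finset.sum_congr rfl h2, Finset.sum_const, card_range, nsmul_eq_mul]
    simp only [hy]
    push_cast
    ring
  rw [h1] at key
  have h2 : ∑ i, 3 * (N : ℝ) * (4 * ((c i : ℝ) - a i)) * (4 * (st c t s r n).2 i) =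
      48 * N * ∑ i, ((c i : ℝ) - a i) * (st c t s r n).2 i := by
    rw [Finset.mul_sum]
    exact Finset.sum_congr rfl fun i _ => by ring
  have h3 : ∑ i, 4 * ((N : ℝ) + 1) * ((c i : ℝ) - a i) * (st c t s r n).2 i =
      4 * (N + 1) * ∑ i, ((c i : ℝ) - a i) * (st c t s r n).2 i := by
    rw [Finset.mul_sum]
    exact Finset.sum_congr rfl fun i _ => by ring
  rw [h2, h3] at key
  have h4 : 0 ≤ ∑ i, ((c i : ℝ) - a i) * (st c t s r n).2 i :=
    Finset.sum_nonneg fun i _ => mul_nonneg (he i) (hζ i)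
  linarith

/-- The analysis of the algorithm. -/
theorem analysis (ht : 1 < t) {a : Fin m → ℕ} (hac : ∀ i, a i < c i) {N : ℕ}
    (hN : ∀ S : Finset (Fin m), (∀ j ∈ S, 2 * ∑ i ∈ S, ((c i : ℝ) - a i) ≤ a j) → S.card ≤ N)
    (s : Fin m → X) (r : ℕ → X) (n : ℕ) (hn : n ≤ ∑ i, c i)
    (o : ℕ → Fin m) (ho : ∀ i, load n o i ≤ a i) (H : ℕ) (hH : 12 * ((N : ℝ) + 1) ≤ 8 * 2 ^ H) :
    ∑ j ∈ range n, dist (s (site c t s r j)) (r j) ≤
      2 * (1 + 144 * N * (H + 1) + 52 * (N + 1)) * t / (t - 1) *
        ∑ j ∈ range n, dist (s (o j)) (r j) := by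
  set O := ∑ j ∈ range n, dist (s (o j)) (r j) with hO
  have hOnn : 0 ≤ O := Finset.sum_nonneg fun _ _ => dist_nonneg
  set z := (st c t s r n).2 with hz
  set f := (st c t s r n).1 with hf
  have hI := inv_all (c := c) ht.le s r n hn
  -- telescoping
  have htel : ∀ k ≤ n, ∃ A B : ℝ, 0 ≤ A ∧ 0 ≤ B ∧
      ∑ j ∈ range k, dist (s ((st c t s r k).1 j)) (r j) = A - B ∧
      ∑ j ∈ range k, dist (s (site c t s r j)) (r j) ≤ A + B ∧
      t * A - B ≤ t * ∑ j ∈ range k, dist (s (o j)) (r j) +
        ∑ j ∈ range k, (st c t s r (j + 1)).2 (o j) := by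
    intro k
    induction k with
    | zero => intro _; exact ⟨0, 0, le_rfl, le_rfl, by simp, by simp, by simp⟩
    | succ k ih =>
      intro hk
      obtain ⟨A, B, hA, hB, h1, h2, h3⟩ := ih (by omega)
      obtain ⟨A', B', hA', hB', h1', h2', h3'⟩ :=
        (stepRel_all (c := c) ht.le s r k (by omega)).acc
      refine ⟨A + A', B + B', add_nonneg hA hA', add_nonneg hB hB', ?_, ?_, ?_⟩
      · rw [h1', h1]; ring
      · rw [Finset.sum_range_succ]; linarith
      · rw [Finset.sum_range_succ, Finset.sum_range_succ]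
        have h4 := h3' (o k)
        linarith
  obtain ⟨A, B, hA, hB, h1, h2, h3⟩ := htel n le_rfl
  have hps := price_sum_le (c := c) ht.le hac hN s r n hn o ho H hH
  rw [← hf] at h1
  have hcost : 0 ≤ A - B := by
    rw [← h1]; exact Finset.sum_nonneg fun _ _ => dist_nonneg
  -- weak duality
  have hdual : ∑ j ∈ range n, (dist (s (f j)) (r j) + z (f j)) ≤
      ∑ j ∈ range n, (t * dist (s (o j)) (r j) + z (o j)) := by
    apply Finset.sum_le_sum
    intro j hj
    exact hI.feas j (mem_range.1 hj) (o j)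
  rw [Finset.sum_add_distrib, Finset.sum_add_distrib, ← Finset.mul_sum, h1, sum_load, sum_load]
    at hdual
  have hfull : ∑ i, (load n f i : ℝ) * z i = ∑ i, (c i : ℝ) * z i := by
    apply Finset.sum_congr rfl
    intro i _
    rcases (hI.cap i).lt_or_eq with h | h
    · have := hI.slack i h
      rw [← hz] at this
      rw [this]; ring
    · rw [← hf] at h
      rw [h]
  rw [hfull] at hdual
  have hslack : ∑ i, ((c i : ℝ) - a i) * z i ≤ t * O := by
    have h4 : ∑ i, ((c i : ℝ) - a i) * z i ≤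
        ∑ i, (c i : ℝ) * z i - ∑ i, (load n o i : ℝ) * z i := by
      rw [← Finset.sum_sub_distrib]
      apply Finset.sum_le_sum
      intro i _
      have h5 : (load n o i : ℝ) ≤ a i := by exact_mod_cast ho i
      have h6 : 0 ≤ z i := hI.nonneg i
      nlinarith
    linarith
  have hM : (0 : ℝ) ≤ 52 * (N + 1) := by positivity
  have hfin : (t - 1) * A ≤ (1 + 144 * N * (H + 1) + 52 * (N + 1)) * (t * O) := by
    have h4 := mul_le_mul_of_nonneg_left hslack hM
    nlinarith
  have hA' : A ≤ (1 + 144 * N * (H + 1) + 52 * (N + 1)) * (t * O) / (t - 1) := by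
    rw [le_div_iff₀ (by linarith)]; linarith
  have : 2 * (1 + 144 * N * (H + 1) + 52 * (N + 1)) * t / (t - 1) * O =
      2 * ((1 + 144 * N * (H + 1) + 52 * (N + 1)) * (t * O) / (t - 1)) := by ring
  rw [this]
  linarith

end

end Pool.Agent.H42T
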